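import Pool.Agent.LibVB85.Ranges

/-!
MP_5bf1da_lc, on-line bin packing with the two bin sizes `1` and `α`: for every second size `α` the
asymptotic worst case ratio of every deterministic on-line algorithm is at least `1.3424`.

`Rstar α` is the infimum over all on-line algorithms of the worst case ratio
`lim_{k → ∞} sup {s(A,L)/s(OPT,L) : OPT(L) ≥ k}` (definitions in `Pool.Agent.LibVB85.Defs`).
-/

namespace Pool.Agent.Results.MP_5bf1da_lc.AllSizes

open VB85

/-- `inf_{0 < α < 1} R^*(α) ≥ 1.3424`. -/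
theorem result : ENNReal.ofReal 1.3424 ≤ ⨅ α : Set.Ioo (0 : ℝ) 1, Rstar (α : ℝ) :=
  le_iInf fun α => all_sizes α.2.1 α.2.2

end Pool.Agent.Results.MP_5bf1da_lc.AllSizes
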