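import Pool.Agent.LibVB85.Ranges
import Pool.Agent.LibVB85.UBFinal

/-!
MP_5bf1da_lc, on-line bin packing with the two bin sizes `1` and `α`: the best second sizes lie in
`(0.673, 0.7501)`. The size `5/7` has `R^*(5/7) ≤ 1.37535`, and every second size outside of this
interval has `R^*(α) ≥ 1.3754`.

`Rstar α` is the infimum over all on-line algorithms of the worst case ratio
`lim_{k → ∞} sup {s(A,L)/s(OPT,L) : OPT(L) ≥ k}` (definitions in `Pool.Agent.LibVB85.Defs`).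
-/

namespace Pool.Agent.Results.MP_5bf1da_lc.BestSize

open VB85

/-- `R^*(5/7) ≤ 1.37535`, and `R^*(α) ≥ 1.3754` for all `α ∈ (0, 0.673] ∪ [0.7501, 1)`. -/
theorem result : Rstar (5 / 7) ≤ ENNReal.ofReal 1.37535 ∧
    ∀ α : ℝ, 0 < α → α < 1 → (α ≤ 0.673 ∨ 0.7501 ≤ α) → ENNReal.ofReal 1.3754 ≤ Rstar α :=
  ⟨Rstar_five_sevenths, fun _ h0 h1 h => far_sizes h0 h1 h⟩

end Pool.Agent.Results.MP_5bf1da_lc.BestSize
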